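import Mathlib
import Pool.Agent.R195.SAlpha4

/-! # MP_919dc2_an, Q1: period three inside a special alpha-limit set

If a periodic orbit of period `3` lies inside `sα(x)`, then for each `n ≥ 1` the set `sα(x)`
contains a periodic orbit of period `n` or one of period `2 n`. -/

set_option autoImplicit false

namespace Pool.Agent.Results.MP_919dc2_an.PeriodThreeForcesNorTwoN

open Pool.Agent.R195.SA

theorem result (f : unitInterval → unitInterval) (hf : Continuous f) (x : unitInterval)
    (h3 : ContainsPeriodicOrbit f (specialAlpha f x) 3) (n : ℕ) (hn : 1 ≤ n) :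
    ContainsPeriodicOrbit f (specialAlpha f x) n ∨
      ContainsPeriodicOrbit f (specialAlpha f x) (2 * n) :=
  main hf x h3 hn

end Pool.Agent.Results.MP_919dc2_an.PeriodThreeForcesNorTwoN
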